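import Pool.Agent.FS.McOmega.Wr

/-! Right Engel elements outside the `ω`-centre in a wreath product with the minimal condition on
centralizers. -/

set_option autoImplicit false

namespace Pool.Agent.Results.MP_3f2ebd_al.MonsterWreath

universe u

/-- the left-normed commutator `[a, _k x]`, where `[a, x] = a⁻¹ a^x` and `a^x = x⁻¹ a x` -/
def comm {G : Type u} [Group G] (a x : G) : ℕ → G
  | 0 => a
  | k + 1 => (comm a x k)⁻¹ * (x⁻¹ * comm a x k * x)

/-- the right `n`-Engel elements -/
def R (G : Type u) [Group G] (n : ℕ) : Set G := {a | ∀ x : G, comm a x n = 1}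

/-- the union of the finite terms of the upper central series -/
def zetaOmega (G : Type u) [Group G] : Set G := ⋃ n : ℕ, (Subgroup.upperCentralSeries G n : Set G)

/-- the minimal condition on centralizers -/
def IsMc (G : Type u) [Group G] : Prop :=
  ∀ X : Set G, ∃ X₀ : Set G, X₀.Finite ∧ X₀ ⊆ X ∧
    Subgroup.centralizer X = Subgroup.centralizer X₀

theorem comm_eq {G : Type u} [Group G] (a x : G) (k : ℕ) :
    comm a x k = (Pool.Agent.Lib.MP_3f2ebd_al.ad x)^[k] a := by
  induction k with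
  | zero => rfl
  | succ k ih => rw [Function.iterate_succ_apply', ← ih]; rfl

theorem isMc_iff (G : Type u) [Group G] : IsMc G ↔ Pool.Agent.Lib.MP_3f2ebd_al.Mc G := by
  refine forall_congr' fun X => ⟨?_, ?_⟩
  · rintro ⟨X₀, h1, h2, h3⟩
    exact ⟨h1.toFinset, by simpa using h2, by simpa using h3⟩
  · rintro ⟨X₀, h2, h3⟩
    exact ⟨X₀, X₀.finite_toSet, h2, h3⟩

theorem result (p : ℕ) (hp : p.Prime) (B : Type u) [Group B] [Infinite B] (hB : ∀ b : B, b ^ p = 1)
    [WellFoundedLT (Subgroup B)] [WellFoundedGT (Subgroup B)] :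
    IsMc (Multiplicative (ZMod p) ≀ᵣ B) ∧
      ∃ a ∈ R (Multiplicative (ZMod p) ≀ᵣ B) p, a ∉ zetaOmega (Multiplicative (ZMod p) ≀ᵣ B) := by
  classical
  have := Fact.mk hp
  refine ⟨(isMc_iff _).2 Pool.Agent.FS.McOmega.mc_wr,
    ⟨Pi.mulSingle 1 (Multiplicative.ofAdd 1), 1⟩,
    fun x => (comm_eq _ x p).trans (Pool.Agent.FS.McOmega.engel_wr hB _ x rfl), fun ha => ?_⟩
  obtain ⟨n, hn⟩ := Set.mem_iUnion.1 ha
  have h := Pool.Agent.FS.McOmega.not_upper n _ hn rfl
    ((Set.finite_singleton (1 : B)).subset Pi.mulSupport_mulSingle_subset)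
  have h1 := congrFun (congrArg RegularWreathProduct.left h) 1
  simp at h1

end Pool.Agent.Results.MP_3f2ebd_al.MonsterWreath
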