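import Pool.Agent.FS.McOmega.Char

/-! Bounded right Engel elements and the `ω`-centre under the minimal condition on centralizers. -/

set_option autoImplicit false

namespace Pool.Agent.Results.MP_3f2ebd_al.OmegaCriterion

universe u

/-- the left-normed commutator `[a, _k x]`, where `[a, x] = a⁻¹ a^x` and `a^x = x⁻¹ a x` -/
def comm {G : Type u} [Group G] (a x : G) : ℕ → G
  | 0 => a
  | k + 1 => (comm a x k)⁻¹ * (x⁻¹ * comm a x k * x)

/-- the right `n`-Engel elements -/
def R (G : Type u) [Group G] (n : ℕ) : Set G := {a | ∀ x : G, comm a x n = 1}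

/-- the bounded right Engel elements -/
def Rbar (G : Type u) [Group G] : Set G := ⋃ n : ℕ, R G n

/-- the union of the finite terms of the upper central series -/
def zetaOmega (G : Type u) [Group G] : Set G := ⋃ n : ℕ, (Subgroup.upperCentralSeries G n : Set G)

/-- the minimal condition on centralizers -/
def IsMc (G : Type u) [Group G] : Prop :=
  ∀ X : Set G, ∃ X₀ : Set G, X₀.Finite ∧ X₀ ⊆ X ∧
    Subgroup.centralizer X = Subgroup.centralizer X₀

theorem comm_eq {G : Type u} [Group G] (a x : G) (k : ℕ) :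
    comm a x k = (Pool.Agent.Lib.MP_3f2ebd_al.ad x)^[k] a := by
  induction k with
  | zero => rfl
  | succ k ih => rw [Function.iterate_succ_apply', ← ih]; rfl

theorem isMc_iff (G : Type u) [Group G] : IsMc G ↔ Pool.Agent.Lib.MP_3f2ebd_al.Mc G := by
  refine forall_congr' fun X => ⟨?_, ?_⟩
  · rintro ⟨X₀, h1, h2, h3⟩
    exact ⟨h1.toFinset, by simpa using h2, by simpa using h3⟩
  · rintro ⟨X₀, h2, h3⟩
    exact ⟨X₀, X₀.finite_toSet, h2, h3⟩

theorem result (G : Type u) [Group G] (hG : IsMc G) (a : G) :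
    a ∈ zetaOmega G ↔ a ∈ Rbar G ∧
      ∀ H : Subgroup (G ⧸ Subgroup.centralizer (Subgroup.normalClosure ({a} : Set G) : Set G)),
        H.FG → ∃ S : Subgroup H, S.FiniteIndex ∧ Group.IsSolvable S := by
  refine ⟨fun ha => ?_, fun ⟨ha, hL⟩ => ?_⟩
  · obtain ⟨n, hn⟩ := Set.mem_iUnion.1 ha
    refine ⟨Set.mem_iUnion.2 ⟨n, fun x => (comm_eq a x n).trans ?_⟩, fun H _ => ?_⟩
    · exact Pool.Agent.FS.McOmega.iterate_of_zm (Subgroup.mem_top x) n a
        ((Pool.Agent.FS.McOmega.zm_top (G := G) n).symm ▸ hn)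
    · have := Pool.Agent.FS.McOmega.quot_solvable hn
      exact ⟨⊤, inferInstance, inferInstance⟩
  · obtain ⟨m, hm⟩ := Set.mem_iUnion.1 ha
    exact Set.mem_iUnion.2 (Pool.Agent.FS.McOmega.omega_of_quot ((isMc_iff G).1 hG) a (m := m)
      (fun x => (comm_eq a x m).symm.trans (hm x)) hL)

/-- The case of a group whose finitely generated subgroups are soluble-by-finite. -/
theorem locally (G : Type u) [Group G] (hG : IsMc G)
    (hL : ∀ H : Subgroup G, H.FG → ∃ S : Subgroup H, S.FiniteIndex ∧ Group.IsSolvable S) :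
    Rbar G = zetaOmega G := by
  classical
  refine Set.Subset.antisymm (fun a ha => (result G hG a).2 ⟨ha, ?_⟩)
    fun a ha => ((result G hG a).1 ha).1
  rintro _ ⟨F, rfl⟩
  let π := QuotientGroup.mk' (Subgroup.centralizer (Subgroup.normalClosure ({a} : Set G) : Set G))
  have hπ : Function.Surjective π := QuotientGroup.mk'_surjective _
  have e : (Subgroup.closure (F.image (Function.surjInv hπ) : Finset G)).map π =
      Subgroup.closure F := by
    rw [MonoidHom.map_closure, Finset.coe_image, Set.image_image]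
    simp [Function.surjInv_eq hπ]
  obtain ⟨S, h1, h2⟩ := hL _ ⟨F.image (Function.surjInv hπ), rfl⟩
  rw [← e]
  refine ⟨S.map (π.subgroupMap _), ⟨fun h0 => h1.index_ne_zero ?_⟩,
    Group.isSolvable_of_surjective (MonoidHom.subgroupMap_surjective _ S)⟩
  exact zero_dvd_iff.1 (h0 ▸ S.index_map_dvd (π.subgroupMap_surjective _))

end Pool.Agent.Results.MP_3f2ebd_al.OmegaCriterion
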