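import Pool.Agent.Lib.MP_3f2ebd_al.Right

/-! Bounded right Engel elements in a normal subgroup with a finite series whose factors satisfy
the minimal condition on centralizers. -/

open scoped Pointwise

namespace Pool.Agent.Results.MP_3f2ebd_al.PolyMc

universe u

/-- the left-normed commutator `[a, _k x]`, where `[a, x] = a⁻¹ a^x` and `a^x = x⁻¹ a x` -/
def comm {G : Type u} [Group G] (a x : G) : ℕ → G
  | 0 => a
  | k + 1 => (comm a x k)⁻¹ * (x⁻¹ * comm a x k * x)

/-- the right `n`-Engel elements -/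
def R (G : Type u) [Group G] (n : ℕ) : Set G := {a | ∀ x : G, comm a x n = 1}

/-- the bounded right Engel elements -/
def Rbar (G : Type u) [Group G] : Set G := ⋃ n : ℕ, R G n

/-- `A` is a normal subgroup of `B` -/
def NormalIn {G : Type u} [Group G] (A B : Subgroup G) : Prop :=
  A ≤ B ∧ ∀ b ∈ B, ∀ a ∈ A, b⁻¹ * a * b ∈ A

/-- the elements `a` such that, for one `n ≥ 1` and every `x`, there is a chain
`⟨x⟩ = H 0 ⊴ H 1 ⊴ ⋯ ⊴ H n = ⟨x⟩ ⟨a⟩^G` -/
def rhoBar (G : Type u) [Group G] : Set G :=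
  {a | ∃ n : ℕ, 1 ≤ n ∧ ∀ x : G, ∃ H : Fin (n + 1) → Subgroup G,
    H 0 = Subgroup.zpowers x ∧
    (H (Fin.last n) : Set G) =
      (Subgroup.zpowers x : Set G) * (Subgroup.normalClosure ({a} : Set G) : Set G) ∧
    ∀ i : Fin n, NormalIn (H i.castSucc) (H i.succ)}

/-- the minimal condition on centralizers -/
def IsMc (G : Type u) [Group G] : Prop :=
  ∀ X : Set G, ∃ X₀ : Set G, X₀.Finite ∧ X₀ ⊆ X ∧
    Subgroup.centralizer X = Subgroup.centralizer X₀

/-- `N` has a finite series `1 = H 0 ⊴ H 1 ⊴ ⋯ ⊴ H k = N` whose factor groups satisfy the minimal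
condition on centralizers -/
def IsPolyMc {G : Type u} [Group G] (N : Subgroup G) : Prop :=
  ∃ (k : ℕ) (H : Fin (k + 1) → Subgroup G), H 0 = ⊥ ∧ H (Fin.last k) = N ∧
    ∀ i : Fin k, H i.castSucc ≤ H i.succ ∧
      ∃ _ : ((H i.castSucc).subgroupOf (H i.succ)).Normal,
        IsMc (H i.succ ⧸ (H i.castSucc).subgroupOf (H i.succ))

theorem comm_eq {G : Type u} [Group G] (a x : G) (k : ℕ) :
    comm a x k = (Pool.Agent.Lib.MP_3f2ebd_al.ad x)^[k] a := by
  induction k with
  | zero => rfl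
  | succ k ih => rw [Function.iterate_succ_apply', ← ih]; rfl

theorem rhoBar_subset (G : Type u) [Group G] : rhoBar G ⊆ Rbar G := by
  rintro a ⟨n, -, h⟩
  refine Set.mem_iUnion.2 ⟨n + 1, fun x => ?_⟩
  obtain ⟨H, h0, hn, hs⟩ := h x
  have hx : ∀ i : Fin (n + 1), x ∈ H i := by
    intro i
    induction i using Fin.induction with
    | zero => rw [h0]; exact Subgroup.mem_zpowers x
    | succ i ih => exact (hs i).1 ih
  have key : ∀ k : ℕ, ∀ hk : k ≤ n, comm a x k ∈ H ⟨n - k, by omega⟩ := by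
    intro k
    induction k with
    | zero =>
      intro _
      have ha : a ∈ (H (Fin.last n) : Set G) := by
        rw [hn]
        exact ⟨1, Subgroup.one_mem _, a,
          Subgroup.subset_normalClosure (Set.mem_singleton a), one_mul a⟩
      exact ha
    | succ k ih =>
      intro hk
      have h1 := ih (by omega)
      have e : (⟨n - k, by omega⟩ : Fin (n + 1)) =
          (⟨n - (k + 1), by omega⟩ : Fin n).succ := by
        ext
        simp only [Fin.val_succ]
        omega
      rw [e] at h1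
      have h2 := (hs ⟨n - (k + 1), by omega⟩).2 _ h1 _ (Subgroup.inv_mem _ (hx _))
      have h3 := Subgroup.mul_mem _ h2 (hx (⟨n - (k + 1), by omega⟩ : Fin n).castSucc)
      have e2 : comm a x (k + 1) = (comm a x k)⁻¹ * x⁻¹ * comm a x k * x := by
        simp only [comm, mul_assoc]
      rw [e2]
      exact h3
  have h4 := key n le_rfl
  have e : (⟨n - n, by omega⟩ : Fin (n + 1)) = 0 := by
    ext
    simp
  rw [e, h0] at h4
  obtain ⟨j, hj⟩ := Subgroup.mem_zpowers_iff.1 h4
  show (comm a x n)⁻¹ * (x⁻¹ * comm a x n * x) = 1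
  rw [← hj]
  group

theorem result (G : Type u) [Group G] (N : Subgroup G) [N.Normal] (hN : IsPolyMc N) :
    Rbar G ∩ (N : Set G) = rhoBar G ∩ (N : Set G) := by
  refine Set.Subset.antisymm ?_ (Set.inter_subset_inter_left _ (rhoBar_subset G))
  rintro a ⟨ha, haN⟩
  refine ⟨?_, haN⟩
  obtain ⟨m, hm⟩ := Set.mem_iUnion.1 ha
  obtain ⟨k, H, h0, hk, hs⟩ := hN
  have hP : ∀ i : Fin (k + 1), Pool.Agent.Lib.MP_3f2ebd_al.Poly i (H i) := by
    intro i
    induction i using Fin.induction with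
    | zero => exact h0
    | succ i ih =>
      obtain ⟨h1, h2, h3⟩ := hs i
      exact ⟨_, h1, (Subgroup.normal_subgroupOf_iff_le_normalizer h1).1 h2,
        Pool.Agent.Lib.MP_3f2ebd_al.mcMod_of_quot h3, ih⟩
  obtain ⟨n, h⟩ := (hk ▸ hP (Fin.last k)).main haN (m := m) fun x => by
    rw [← comm_eq]
    exact hm x
  refine ⟨n + 1, by omega, fun x => ?_⟩
  obtain ⟨C, h1, h2, h3⟩ := ((h x).mono (Nat.le_succ n)).chain
  refine ⟨fun i => C i, h1, ?_, fun i => ⟨(h3 i i.2).1, fun b hb c hc => ?_⟩⟩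
  · show ((C (n + 1) : Subgroup G) : Set G) = _
    rw [h2, Subgroup.mul_normal]
  · exact Pool.Agent.Lib.MP_3f2ebd_al.conj_mem_of_nz' ((h3 i i.2).2 hb) hc

/-- the minimal condition on centralizers is invariant under isomorphism -/
theorem IsMc.of_equiv {G G' : Type u} [Group G] [Group G'] (hG : IsMc G) (e : G' ≃* G) :
    IsMc G' := by
  intro X
  obtain ⟨Y, h1, h2, h3⟩ := hG (e '' X)
  have h4 : e ⁻¹' Y ⊆ X := fun y hy => by
    obtain ⟨w, hw, h⟩ := h2 hy
    exact e.injective h ▸ hw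
  refine ⟨e ⁻¹' Y, h1.preimage e.injective.injOn, h4,
    le_antisymm (Subgroup.centralizer_le h4) fun z hz x hx => e.injective ?_⟩
  have : e z ∈ Subgroup.centralizer (e '' X) := h3.ge fun y hy => by
    obtain ⟨w, rfl⟩ := e.surjective y
    exact (map_mul e w z).symm.trans ((congrArg e (hz w hy)).trans (map_mul e z w))
  exact (map_mul e x z).trans ((this _ ⟨x, hx, rfl⟩).trans (map_mul e z x).symm)

/-- a group with the minimal condition on centralizers has such a series of length one -/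
theorem isPolyMc_top {G : Type u} [Group G] (hG : IsMc G) : IsPolyMc (⊤ : Subgroup G) := by
  refine ⟨1, ![⊥, ⊤], rfl, rfl, fun i => ?_⟩
  obtain rfl : i = 0 := Subsingleton.elim _ _
  have h : IsMc ((⊤ : Subgroup G) ⧸ (⊥ : Subgroup G).subgroupOf ⊤) := hG.of_equiv
    (((QuotientGroup.quotientMulEquivOfEq (Subgroup.bot_subgroupOf ⊤)).trans
      QuotientGroup.quotientBot).trans Subgroup.topEquiv)
  exact ⟨bot_le, (inferInstance : ((⊥ : Subgroup G).subgroupOf ⊤).Normal), h⟩

/-- the question as posed -/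
theorem of_isMc (G : Type u) [Group G] (hG : IsMc G) : Rbar G = rhoBar G := by
  simpa using result G ⊤ (isPolyMc_top hG)

end Pool.Agent.Results.MP_3f2ebd_al.PolyMc
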